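import Pool.Agent.K1H9.RP.Stm

/-!
# Project RP (MP_bc6d74_co): the pointwise identity `S_G` from `S_LP`
-/

open MeasureTheory ProbabilityTheory Matrix
open scoped BigOperators ENNReal

namespace Pool.Agent.K1H66.RP

open Pool.Agent.K1H9.RP

/-- points of the convex hull of a finite family -/
lemma mem_cvx {κ : Type} [Fintype κ] {E : Type} [AddCommGroup E] [Module ℝ E] (f : κ → E)
    (u : E) : u ∈ convexHull ℝ (Set.range f) ↔
      ∃ w : κ → ℝ, (∀ i, 0 ≤ w i) ∧ ∑ i, w i = 1 ∧ ∑ i, w i • f i = u := by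
  classical
  constructor
  · intro hu
    rw [convexHull_range_eq_exists_affineCombination] at hu
    obtain ⟨s, w, hw0, hw1, hwu⟩ := hu
    refine ⟨fun i => if i ∈ s then w i else 0, fun i => ?_, ?_, ?_⟩
    · dsimp only
      split_ifs with hi
      · exact hw0 i hi
      · exact le_refl _
    · rw [← hw1, Finset.sum_ite_mem, Finset.univ_inter]
    · rw [Finset.affineCombination_eq_linear_combination s f w hw1] at hwu
      rw [← hwu]
      simp only [ite_smul, zero_smul]
      rw [Finset.sum_ite_mem, Finset.univ_inter]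
  · rintro ⟨w, hw0, hw1, rfl⟩
    exact mem_convexHull_of_exists_fintype w f hw0 hw1 (fun i => Set.mem_range_self i) rfl

section

variable {d a b : ℕ} (x : Fin a ⊕ Fin b → Fin d → ℝ) (z : Fin d → ℝ)

/-- the signed vectors -/
noncomputable def ww (i : Fin a ⊕ Fin b) : Fin (d + 1) → ℝ := (sg i) • hom (x i)

/-- `v` is in the cone -/
def Cone (v : Fin (d + 1) → ℝ) : Prop :=
  ∃ y : Fin a ⊕ Fin b → ℝ, (∀ i, 0 ≤ y i) ∧ ∑ i, y i • ww x i = v

/-- a nontrivial nonnegative relation -/
def Deg : Prop :=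
  ∃ y : Fin a ⊕ Fin b → ℝ, (∀ i, 0 ≤ y i) ∧ y ≠ 0 ∧ ∑ i, y i • ww x i = 0

lemma hom_add_smul {κ : Type} [Fintype κ] (c : κ → ℝ) (f : κ → Fin d → ℝ) :
    ∑ i, c i • hom (f i) = Fin.cons (∑ i, c i) (∑ i, c i • f i) := by
  funext k
  refine Fin.cases ?_ (fun l => ?_) k
  · simp [hom, Finset.sum_apply]
  · simp [hom, Finset.sum_apply]

lemma sum_ww (y : Fin a ⊕ Fin b → ℝ) : ∑ i, y i • ww x i =
    (∑ j, y (Sum.inr j) • hom (x (Sum.inr j))) - ∑ i, y (Sum.inl i) • hom (x (Sum.inl i)) := by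
  rw [Fintype.sum_sum_type]
  simp only [ww, sg, Sum.elim_inl, Sum.elim_inr, one_smul, neg_smul, smul_neg,
    Finset.sum_neg_distrib]
  abel

lemma insert_range (f : Fin a → Fin d → ℝ) (z : Fin d → ℝ) :
    insert z (Set.range f) = Set.range (fun o : Option (Fin a) => o.elim z f) := by
  ext u
  constructor
  · rintro (rfl | ⟨i, rfl⟩)
    · exact ⟨none, rfl⟩
    · exact ⟨some i, rfl⟩
  · rintro ⟨o, rfl⟩
    cases o with
    | none => exact Or.inl rfl
    | some i => exact Or.inr ⟨i, rfl⟩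

/-- a positive multiple of `s • hom z` or zero is a nontrivial combination -/
def Rel (s : ℝ) : Prop :=
  ∃ (t : ℝ) (y : Fin a ⊕ Fin b → ℝ), 0 ≤ t ∧ (∀ i, 0 ≤ y i) ∧ (t ≠ 0 ∨ y ≠ 0) ∧
    ∑ i, y i • ww x i = (s * t) • hom z

lemma rel_iff (s : ℝ) : Rel x z s ↔ Cone x (s • hom z) ∨ Deg x := by
  constructor
  · rintro ⟨t, y, ht, hy, hne, h⟩
    rcases eq_or_lt_of_le ht with h0 | h0
    · right
      rcases hne with h1 | h1
      · exact absurd h0.symm h1
      · exact ⟨y, hy, h1, by rw [h, ← h0, mul_zero, zero_smul]⟩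
    · left
      refine ⟨fun i => t⁻¹ * y i, fun i => mul_nonneg (inv_nonneg.2 ht) (hy i), ?_⟩
      have : ∑ i, (t⁻¹ * y i) • ww x i = t⁻¹ • ∑ i, y i • ww x i := by
        rw [Finset.smul_sum]
        exact Finset.sum_congr rfl fun i _ => by rw [mul_smul]
      rw [this, h, smul_smul]
      congr 1
      field_simp
  · rintro (⟨y, hy, h⟩ | ⟨y, hy, hne, h⟩)
    · exact ⟨1, y, zero_le_one, hy, Or.inl one_ne_zero, by rw [h, mul_one]⟩
    · exact ⟨0, y, le_refl _, hy, Or.inr hne, by rw [h, mul_zero, zero_smul]⟩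

lemma range_comp_inl : x '' Set.range Sum.inl = Set.range (fun i => x (Sum.inl i)) := by
  rw [← Set.range_comp]; rfl

lemma range_comp_inr : x '' Set.range Sum.inr = Set.range (fun i => x (Sum.inr i)) := by
  rw [← Set.range_comp]; rfl

lemma cons_eq {s t : ℝ} {u v : Fin d → ℝ} :
    (Fin.cons s u : Fin (d + 1) → ℝ) = Fin.cons t v ↔ s = t ∧ u = v := by
  constructor
  · intro h
    exact ⟨by simpa using congrFun h 0, by funext k; simpa using congrFun h k.succ⟩
  · rintro ⟨rfl, rfl⟩; rfl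

lemma radP_iff : RadP x z ↔ Rel x z 1 := by
  unfold RadP
  rw [range_comp_inl, range_comp_inr, insert_range]
  constructor
  · rintro ⟨u, h1, h2⟩
    rw [mem_cvx] at h1 h2
    obtain ⟨l, hl0, hl1, hlu⟩ := h1
    obtain ⟨m, hm0, hm1, hmu⟩ := h2
    rw [Fintype.sum_option] at hl1 hlu
    simp only [Option.elim_none, Option.elim_some] at hlu
    refine ⟨l none, Sum.elim (fun i => l (some i)) m, hl0 _, ?_, ?_, ?_⟩
    · rintro (i | i)
      · exact hl0 _
      · exact hm0 _
    · right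
      intro h0
      have : ∀ i, m i = 0 := fun i => by simpa using congrFun h0 (Sum.inr i)
      rw [Finset.sum_eq_zero (fun i _ => this i)] at hm1
      exact zero_ne_one hm1
    · rw [sum_ww]
      simp only [Sum.elim_inl, Sum.elim_inr]
      rw [hom_add_smul, hom_add_smul, one_mul, hm1, hmu, ← hlu]
      have : l none • hom z = Fin.cons (l none) (l none • z) := by
        funext k
        refine Fin.cases ?_ (fun l => ?_) k
        · simp [hom]
        · simp [hom]
      rw [this, sub_eq_iff_eq_add]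
      funext k
      refine Fin.cases ?_ (fun l => ?_) k
      · simp only [Fin.cons_zero, Pi.add_apply]
        exact hl1.symm
      · simp only [Fin.cons_succ, Pi.add_apply]
  · rintro ⟨t, y, ht, hy, hne, h⟩
    rw [sum_ww, hom_add_smul, hom_add_smul, one_mul, sub_eq_iff_eq_add] at h
    have h0 : ∑ j, y (Sum.inr j) = t + ∑ i, y (Sum.inl i) := by
      have := congrFun h 0
      simpa [hom] using this
    have h1 : ∑ j, y (Sum.inr j) • x (Sum.inr j) = t • z + ∑ i, y (Sum.inl i) • x (Sum.inl i) := by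
      funext k
      have := congrFun h k.succ
      simpa [hom] using this
    set T := ∑ j, y (Sum.inr j) with hT
    have hT0 : 0 ≤ T := Finset.sum_nonneg fun i _ => hy _
    have hl0 : 0 ≤ ∑ i, y (Sum.inl i) := Finset.sum_nonneg fun i _ => hy _
    have hTpos : 0 < T := by
      rcases eq_or_lt_of_le hT0 with h2 | h2
      · exfalso
        have h3 : t = 0 := by linarith
        have h4 : ∑ i, y (Sum.inl i) = 0 := by linarith
        have h5 : ∀ i, y (Sum.inl i) = 0 := fun i =>
          (Finset.sum_eq_zero_iff_of_nonneg (fun i _ => hy _)).1 h4 i (Finset.mem_univ _)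
        have h6 : ∀ i, y (Sum.inr i) = 0 := fun i =>
          (Finset.sum_eq_zero_iff_of_nonneg (fun i _ => hy _)).1 h2.symm i (Finset.mem_univ _)
        rcases hne with h7 | h7
        · exact h7 h3
        · apply h7
          funext i
          rcases i with i | i
          · exact h5 i
          · exact h6 i
      · exact h2
    refine ⟨T⁻¹ • ∑ j, y (Sum.inr j) • x (Sum.inr j), ?_, ?_⟩
    · rw [mem_cvx]
      refine ⟨fun o => T⁻¹ * o.elim t (fun i => y (Sum.inl i)), ?_, ?_, ?_⟩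
      · rintro (_ | i)
        · exact mul_nonneg (inv_nonneg.2 hT0) ht
        · exact mul_nonneg (inv_nonneg.2 hT0) (hy _)
      · rw [← Finset.mul_sum, Fintype.sum_option]
        simp only [Option.elim_none, Option.elim_some]
        rw [← h0, inv_mul_cancel₀ hTpos.ne']
      · rw [Fintype.sum_option]
        simp only [Option.elim_none, Option.elim_some, mul_smul]
        rw [← Finset.smul_sum, ← smul_add, h1]
    · rw [mem_cvx]
      refine ⟨fun j => T⁻¹ * y (Sum.inr j), fun j => mul_nonneg (inv_nonneg.2 hT0) (hy _), ?_, ?_⟩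
      · rw [← Finset.mul_sum, ← hT, inv_mul_cancel₀ hTpos.ne']
      · simp only [mul_smul]
        rw [← Finset.smul_sum]

lemma radM_swap : RadM x z ↔ RadP (x ∘ Sum.swap) z := by
  unfold RadM RadP
  have h1 : (x ∘ Sum.swap) '' Set.range Sum.inl = x '' Set.range (Sum.inr : Fin b → Fin a ⊕ Fin b) := by
    rw [← Set.range_comp, ← Set.range_comp]; rfl
  have h2 : (x ∘ Sum.swap) '' Set.range Sum.inr = x '' Set.range (Sum.inl : Fin a → Fin a ⊕ Fin b) := by
    rw [← Set.range_comp, ← Set.range_comp]; rfl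
  rw [h1, h2, Set.inter_comm]

lemma ww_swap (i : Fin b ⊕ Fin a) : ww (x ∘ Sum.swap) i = - ww x i.swap := by
  rcases i with i | i <;> simp [ww, sg]

lemma sum_swap (y : Fin b ⊕ Fin a → ℝ) :
    ∑ i, y i • ww (x ∘ Sum.swap) i = - ∑ i, y i.swap • ww x i := by
  rw [← Finset.sum_neg_distrib, ← Equiv.sum_comp (Equiv.sumComm (Fin a) (Fin b))]
  refine Finset.sum_congr rfl fun i _ => ?_
  rw [Equiv.sumComm_apply, ww_swap, Sum.swap_swap, smul_neg]

lemma radM_iff : RadM x z ↔ Rel x z (-1) := by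
  rw [radM_swap, radP_iff]
  constructor
  · rintro ⟨t, y, ht, hy, hne, h⟩
    refine ⟨t, y ∘ Sum.swap, ht, fun i => hy _, ?_, ?_⟩
    · rcases hne with h1 | h1
      · exact Or.inl h1
      · refine Or.inr fun h2 => h1 ?_
        funext i
        have := congrFun h2 i.swap
        simpa using this
    · rw [sum_swap] at h
      have : ∑ i, (y ∘ Sum.swap) i • ww x i = -((1 * t) • hom z) := by
        rw [← h, neg_neg]; rfl
      rw [this, ← neg_smul]
      congr 1
      ring
  · rintro ⟨t, y, ht, hy, hne, h⟩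
    refine ⟨t, y ∘ Sum.swap, ht, fun i => hy _, ?_, ?_⟩
    · rcases hne with h1 | h1
      · exact Or.inl h1
      · refine Or.inr fun h2 => h1 ?_
        funext i
        have := congrFun h2 i.swap
        simpa using this
    · rw [sum_swap]
      have : ∑ i : Fin a ⊕ Fin b, (y ∘ Sum.swap) i.swap • ww x i = (-1 * t) • hom z := by
        rw [← h]
        exact Finset.sum_congr rfl fun i _ => by simp
      rw [this, ← neg_smul]
      congr 1
      ring

/-! ### general position -/

variable {x z} {h : Fin a ⊕ Fin b → ℝ}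

lemma sg_sq (i : Fin a ⊕ Fin b) : sg i * sg i = 1 := by
  rcases i with i | i <;> simp [sg]

lemma sg_ne (i : Fin a ⊕ Fin b) : sg i ≠ 0 := fun h0 => by
  have := sg_sq i
  rw [h0] at this
  norm_num at this

lemma indep (hG : Gen x z h) (S : Finset (Fin a ⊕ Fin b)) (hS : S.card = d + 1) :
    LinearIndependent ℝ (fun i : S => ww x i) := by
  have h1 := hG.1 S hS
  have h2 := h1.units_smul (fun i : S => Units.mk0 (sg (i : Fin a ⊕ Fin b)) (sg_ne _))
  exact h2

lemma notin_span (hG : Gen x z h) (hab : d + 1 ≤ a + b) {s : ℝ} (hs : s ≠ 0)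
    (S : Finset (Fin a ⊕ Fin b)) (hS : S.card < d + 1) :
    s • hom z ∉ Submodule.span ℝ (ww x '' (S : Set (Fin a ⊕ Fin b))) := by
  classical
  intro hmem
  obtain ⟨T, hST, -, hT⟩ := Finset.exists_subsuperset_card_eq (Finset.subset_univ S)
    (Nat.lt_succ_iff.1 hS) (by simp only [Finset.card_univ, Fintype.card_sum, Fintype.card_fin]; omega : d ≤ (Finset.univ : Finset (Fin a ⊕ Fin b)).card)
  refine hG.2.1 T hT ?_
  have h1 : Submodule.span ℝ (ww x '' (S : Set (Fin a ⊕ Fin b))) ≤
      Submodule.span ℝ ((fun i => hom (x i)) '' (T : Set (Fin a ⊕ Fin b))) := by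
    rw [Submodule.span_le]
    rintro _ ⟨i, hi, rfl⟩
    exact Submodule.smul_mem _ _ (Submodule.subset_span ⟨i, hST hi, rfl⟩)
  have h2 := Submodule.smul_mem _ s⁻¹ (h1 hmem)
  rwa [smul_smul, inv_mul_cancel₀ hs, one_smul] at h2

lemma dot_ww (p : Fin (d + 1) → ℝ) (i : Fin a ⊕ Fin b) : p ⬝ᵥ ww x i = sg i * (p ⬝ᵥ hom (x i)) := by
  rw [ww, dotProduct_smul, smul_eq_mul]

lemma third (hG : Gen x z h) (S : Finset (Fin a ⊕ Fin b)) (hS : S.card = d + 1)
    (p : Fin (d + 1) → ℝ) (hp : ∀ i ∈ S, p ⬝ᵥ ww x i = -(sg i * h i)) (i : Fin a ⊕ Fin b)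
    (hi : i ∉ S) : p ⬝ᵥ ww x i ≠ -(sg i * h i) := by
  have key : ∀ j, p ⬝ᵥ ww x j = -(sg j * h j) ↔ (-p) ⬝ᵥ hom (x j) = h j := by
    intro j
    rw [dot_ww, neg_dotProduct]
    constructor
    · intro h1
      have h2 : sg j * (p ⬝ᵥ hom (x j) + h j) = 0 := by linarith
      rcases mul_eq_zero.1 h2 with h3 | h3
      · exact absurd h3 (sg_ne j)
      · linarith
    · intro h1
      rw [← h1]; ring
  intro h1
  exact hG.2.2 S hS (-p) (fun j hj => (key j).1 (hp j hj)) i hi ((key i).1 h1)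

lemma dual_iff (S : Finset (Fin a ⊕ Fin b)) : Dual S x h ↔
    ∃ p : Fin (d + 1) → ℝ, (∀ i ∈ S, p ⬝ᵥ ww x i = -(sg i * h i)) ∧
      (∀ i, i ∉ S → p ⬝ᵥ ww x i < -(sg i * h i)) := by
  constructor
  · rintro ⟨p, h1, h2⟩
    refine ⟨-p, fun i hi => ?_, fun i hi => ?_⟩
    · rw [dot_ww, neg_dotProduct, h1 i hi]; ring
    · rw [dot_ww, neg_dotProduct]
      have := h2 i hi
      linarith
  · rintro ⟨p, h1, h2⟩
    refine ⟨-p, fun i hi => ?_, fun i hi => ?_⟩
    · have h3 := h1 i hi
      rw [dot_ww] at h3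
      rw [neg_dotProduct]
      have h2 : sg i * (p ⬝ᵥ hom (x i) + h i) = 0 := by linarith
      rcases mul_eq_zero.1 h2 with h3 | h3
      · exact absurd h3 (sg_ne i)
      · linarith
    · have h3 := h2 i hi
      rw [dot_ww] at h3
      rw [neg_dotProduct]
      linarith

lemma pos_iff {s : ℝ} (hs : s * s = 1) (S : Finset (Fin a ⊕ Fin b)) : Pos s S x z ↔
    ∃ y : Fin a ⊕ Fin b → ℝ, (∀ i ∈ S, 0 < y i) ∧ (∀ i, i ∉ S → y i = 0) ∧
      ∑ i, y i • ww x i = s • hom z := by
  constructor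
  · rintro ⟨m, h0, h1, h2⟩
    refine ⟨fun i => s * sg i * m i, h1, fun i hi => by
      show s * sg i * m i = 0
      rw [h0 i hi, mul_zero], ?_⟩
    rw [← h2, Finset.smul_sum]
    refine Finset.sum_congr rfl fun i _ => ?_
    rw [ww, smul_smul, smul_smul]
    congr 1
    have := sg_sq i
    calc s * sg i * m i * sg i = s * m i * (sg i * sg i) := by ring
      _ = s * m i := by rw [this, mul_one]
  · rintro ⟨y, h0, h1, h2⟩
    refine ⟨fun i => s * sg i * y i, fun i hi => by
      show s * sg i * y i = 0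
      rw [h1 i hi, mul_zero], fun i hi => ?_, ?_⟩
    · have h3 : s * sg i * (s * sg i * y i) = y i := by
        calc s * sg i * (s * sg i * y i) = (s * s) * (sg i * sg i) * y i := by ring
          _ = y i := by rw [hs, sg_sq, one_mul, one_mul]
      rw [h3]; exact h0 i hi
    · have h4 : ∑ i, (s * sg i * y i) • hom (x i) = s • ∑ i, y i • ww x i := by
        rw [Finset.smul_sum]
        refine Finset.sum_congr rfl fun i _ => ?_
        rw [ww, smul_smul, smul_smul]
        congr 1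
        ring
      rw [h4, h2, smul_smul, hs, one_smul]

/-- a nontrivial nonnegative relation makes the cone everything -/
lemma cone_of_deg (hG : Gen x z h) (hab : d + 1 ≤ a + b) (hD : Deg x) (v : Fin (d + 1) → ℝ) :
    Cone x v := by
  classical
  obtain ⟨y, hy, hne, hsum⟩ := hD
  set T : Finset (Fin a ⊕ Fin b) := Finset.univ.filter fun i => y i ≠ 0 with hT
  have hyT : ∀ i, i ∉ T → y i = 0 := fun i hi => by
    by_contra h0
    exact hi (Finset.mem_filter.2 ⟨Finset.mem_univ _, h0⟩)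
  have hcard : d + 1 ≤ T.card := by
    by_contra hlt
    rw [not_le] at hlt
    obtain ⟨S, hTS, -, hS⟩ := Finset.exists_subsuperset_card_eq (Finset.subset_univ T)
      hlt.le (by simp only [Finset.card_univ, Fintype.card_sum, Fintype.card_fin]; omega :
        d + 1 ≤ (Finset.univ : Finset (Fin a ⊕ Fin b)).card)
    have hind := indep hG S hS
    have h1 : ∑ i : S, y i • ww x i = 0 := by
      rw [Finset.sum_coe_sort S (fun i => y i • ww x i), ← hsum]
      refine Finset.sum_subset (Finset.subset_univ S) fun i _ hi => ?_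
      rw [hyT i (fun h0 => hi (hTS h0)), zero_smul]
    have h2 := Fintype.linearIndependent_iff.1 hind (fun i => y i) h1
    apply hne
    funext i
    by_cases hi : i ∈ S
    · exact h2 ⟨i, hi⟩
    · exact hyT i fun h0 => hi (hTS h0)
  obtain ⟨S, hST, hS⟩ := Finset.exists_subset_card_eq hcard
  have hind := indep hG S hS
  have hspan : Submodule.span ℝ (Set.range fun i : S => ww x i) = ⊤ := by
    apply hind.span_eq_top_of_card_eq_finrank'
    rw [Fintype.card_coe, hS]
    simp
  have hv : v ∈ Submodule.span ℝ (Set.range fun i : S => ww x i) := by rw [hspan]; trivial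
  obtain ⟨c, hc⟩ := (Submodule.mem_span_range_iff_exists_fun ℝ).1 hv
  -- a large multiple of `y`
  have hyS : ∀ i : S, 0 < y i := fun i => by
    have h0 : y i ≠ 0 := (Finset.mem_filter.1 (hST i.2)).2
    exact lt_of_le_of_ne (hy _) h0.symm
  set K : ℝ := ∑ i : S, |c i| / y i with hK
  have hK0 : 0 ≤ K := Finset.sum_nonneg fun i _ => div_nonneg (abs_nonneg _) (hyS i).le
  have hKi : ∀ i : S, 0 ≤ c i + K * y i := fun i => by
    have h1 : |c i| / y i ≤ K :=
      Finset.single_le_sum (f := fun i : S => |c i| / y i)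
        (fun i _ => div_nonneg (abs_nonneg _) (hyS i).le) (Finset.mem_univ i)
    have h2 : |c i| ≤ K * y i := by rwa [div_le_iff₀ (hyS i)] at h1
    have h3 := neg_abs_le (c i)
    linarith
  refine ⟨fun i => (if hi : i ∈ S then c ⟨i, hi⟩ else 0) + K * y i, fun i => ?_, ?_⟩
  · by_cases hi : i ∈ S
    · simp only [hi, dif_pos]
      exact hKi ⟨i, hi⟩
    · simp only [hi, dif_neg, not_false_eq_true, zero_add]
      exact mul_nonneg hK0 (hy i)
  · have h1 : ∑ i, (K * y i) • ww x i = 0 := by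
      have : ∑ i, (K * y i) • ww x i = K • ∑ i, y i • ww x i := by
        rw [Finset.smul_sum]
        exact Finset.sum_congr rfl fun i _ => by rw [mul_smul]
      rw [this, hsum, smul_zero]
    have h2 : ∑ i, (if hi : i ∈ S then c ⟨i, hi⟩ else 0) • ww x i = v := by
      rw [← hc, ← Finset.sum_subset (Finset.subset_univ S), ← Finset.sum_coe_sort S]
      · exact Finset.sum_congr rfl fun i _ => by rw [dif_pos i.2]
      · intro i _ hi
        rw [dif_neg hi, zero_smul]
    simp only [add_smul]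
    rw [Finset.sum_add_distrib, h1, h2, add_zero]

/-- if there is no nontrivial nonnegative relation, all systems `p · w i ≤ c i` are solvable -/
lemma feasible_of_not_deg (hD : ¬ Deg x) (c : Fin a ⊕ Fin b → ℝ) :
    ∃ p : Fin (d + 1) → ℝ, ∀ i, p ⬝ᵥ ww x i ≤ c i := by
  classical
  have h0 : (0 : Fin (d + 1) → ℝ) ∉ convexHull ℝ (Set.range (ww x)) := by
    intro hmem
    rw [mem_cvx] at hmem
    obtain ⟨w, hw0, hw1, hw⟩ := hmem
    refine hD ⟨w, hw0, ?_, hw⟩
    rintro rfl
    simp at hw1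
  obtain ⟨f, u, hf1, hf2⟩ := geometric_hahn_banach_closed_point (convex_convexHull ℝ _)
    ((Set.finite_range (ww x)).isCompact_convexHull ℝ).isClosed h0
  rw [map_zero] at hf2
  have hneg : ∀ i, f (ww x i) < 0 := fun i =>
    (hf1 _ (subset_convexHull ℝ _ (Set.mem_range_self i))).trans hf2
  -- the functional as a vector
  set p : Fin (d + 1) → ℝ := fun k => f (fun j => if k = j then 1 else 0) with hp
  have hfp : ∀ v, f v = p ⬝ᵥ v := fun v => by
    have h1 := LinearMap.pi_apply_eq_sum_univ (f : (Fin (d + 1) → ℝ) →ₗ[ℝ] ℝ) v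
    rw [dotProduct]
    refine Eq.trans h1 ?_
    refine Finset.sum_congr rfl fun k _ => ?_
    rw [smul_eq_mul, mul_comm]
    rfl
  set K : ℝ := ∑ i, |c i| / (-f (ww x i)) with hK
  refine ⟨K • p, fun i => ?_⟩
  rw [smul_dotProduct, ← hfp, smul_eq_mul]
  have hpos : 0 < -f (ww x i) := by linarith [hneg i]
  have h1 : |c i| / (-f (ww x i)) ≤ K :=
    Finset.single_le_sum (f := fun i => |c i| / (-f (ww x i)))
      (fun i _ => div_nonneg (abs_nonneg _) (by linarith [hneg i])) (Finset.mem_univ i)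
  have h2 : |c i| ≤ K * (-f (ww x i)) := by rwa [div_le_iff₀ hpos] at h1
  have h3 := neg_abs_le (c i)
  linarith

end

lemma sum_ind {ι : Type} [Fintype ι] [DecidableEq ι] (F : Finset (Finset ι))
    (P : Finset ι → Prop) [DecidablePred P] (h : ∃! S, S ∈ F ∧ P S) :
    ∑ S ∈ F, (if P S then (1 : ℝ) else 0) = 1 := by
  obtain ⟨S, ⟨h1, h2⟩, h3⟩ := h
  rw [Finset.sum_eq_single S]
  · rw [if_pos h2]
  · intro S' hS' hne
    rw [if_neg]
    intro h4
    exact hne (h3 S' ⟨hS', h4⟩)
  · intro h4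
    exact absurd h1 h4

lemma ind_eq {α : Type} (A : Set α) (q : α) (P : Prop) [Decidable P] (h : q ∈ A ↔ P) :
    Set.indicator A (fun _ => (1 : ℝ)) q = if P then 1 else 0 := by
  by_cases hP : P
  · rw [if_pos hP, Set.indicator_of_mem (h.2 hP)]
  · rw [if_neg hP, Set.indicator_of_notMem (fun h1 => hP (h.1 h1))]

/-- The pointwise identity. -/
theorem t_G (hLP : S_LP) : S_G := by
  classical
  intro d a b hab x z h hG
  -- the sum over the bases for one sign
  have key : ∀ s : ℝ, s * s = 1 → (∃ p : Fin (d + 1) → ℝ, ∀ i, p ⬝ᵥ ww x i ≤ -(sg i * h i)) →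
      ∑ S ∈ (Finset.univ : Finset (Fin a ⊕ Fin b)).powersetCard (d + 1),
        (if Pos s S x z ∧ Dual S x h then (1 : ℝ) else 0) = if Rel x z s then 1 else 0 := by
    intro s hs hfeas
    have hs0 : s ≠ 0 := by
      rintro rfl
      norm_num at hs
    have hrel : Rel x z s ↔ Cone x (s • hom z) := by
      rw [rel_iff]
      constructor
      · rintro (h1 | h1)
        · exact h1
        · exact cone_of_deg hG hab h1 _
      · exact Or.inl
    by_cases hC : Cone x (s • hom z)
    · rw [if_pos (hrel.2 hC)]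
      apply sum_ind
      obtain ⟨S, ⟨hS1, hS2, hS3⟩, hS4⟩ := hLP (Fin a ⊕ Fin b) (d + 1) (ww x) (s • hom z)
        (fun i => -(sg i * h i))
        (by simp only [Fintype.card_sum, Fintype.card_fin]; exact hab)
        (fun S hS => indep hG S hS) (fun S hS => notin_span hG hab hs0 S hS)
        (fun S hS p hp i hi => third hG S hS p hp i hi) hfeas hC
      refine ⟨S, ⟨Finset.mem_powersetCard.2 ⟨Finset.subset_univ _, hS1⟩,
        (pos_iff hs S).2 hS2, (dual_iff S).2 hS3⟩, ?_⟩
      rintro S' ⟨h1, h2, h3⟩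
      exact hS4 S' ⟨(Finset.mem_powersetCard.1 h1).2, (pos_iff hs S').1 h2, (dual_iff S').1 h3⟩
    · rw [if_neg (fun h1 => hC (hrel.1 h1))]
      refine Finset.sum_eq_zero fun S _ => ?_
      rw [if_neg]
      rintro ⟨h1, -⟩
      obtain ⟨y, h2, h3, h4⟩ := (pos_iff hs S).1 h1
      refine hC ⟨y, fun i => ?_, h4⟩
      by_cases hi : i ∈ S
      · exact (h2 i hi).le
      · exact (h3 i hi).ge
  rw [Finset.sum_sub_distrib,
    ind_eq {q : (Fin a ⊕ Fin b → Fin d → ℝ) × (Fin d → ℝ) | RadP q.1 q.2} (x, z) (Rel x z 1)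
      (radP_iff x z),
    ind_eq {q : (Fin a ⊕ Fin b → Fin d → ℝ) × (Fin d → ℝ) | RadM q.1 q.2} (x, z) (Rel x z (-1))
      (radM_iff x z)]
  have hs : ∀ s : ℝ, ∀ S : Finset (Fin a ⊕ Fin b),
      Set.indicator {q : ((Fin a ⊕ Fin b → Fin d → ℝ) × (Fin d → ℝ)) × (Fin a ⊕ Fin b → ℝ) |
          Pos s S q.1.1 q.1.2 ∧ Dual S q.1.1 q.2} (fun _ => (1 : ℝ)) ((x, z), h) =
        if Pos s S x z ∧ Dual S x h then 1 else 0 := fun s S => ind_eq _ _ _ Iff.rfl
  simp only [hs]
  by_cases hfeas : ∃ p : Fin (d + 1) → ℝ, ∀ i, p ⬝ᵥ ww x i ≤ -(sg i * h i)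
  · rw [key 1 (by norm_num) hfeas, key (-1) (by norm_num) hfeas]
  · have hD : Deg x := by
      by_contra hD
      exact hfeas (feasible_of_not_deg hD _)
    rw [if_pos ((rel_iff x z 1).2 (Or.inr hD)), if_pos ((rel_iff x z (-1)).2 (Or.inr hD)), sub_self]
    have hz : ∀ s : ℝ, ∑ S ∈ (Finset.univ : Finset (Fin a ⊕ Fin b)).powersetCard (d + 1),
        (if Pos s S x z ∧ Dual S x h then (1 : ℝ) else 0) = 0 := by
      intro s
      refine Finset.sum_eq_zero fun S _ => ?_
      rw [if_neg]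
      rintro ⟨-, h1⟩
      obtain ⟨p, h2, h3⟩ := (dual_iff S).1 h1
      refine hfeas ⟨p, fun i => ?_⟩
      by_cases hi : i ∈ S
      · exact (h2 i hi).le
      · exact (h3 i hi).le
    rw [hz, hz, sub_self]

end Pool.Agent.K1H66.RP
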